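import Pool.Agent.Helper92.TS.OwnSmall
import Pool.Agent.Helper92.TS.RowC

/-!
# The cell `(r; s)` in conflict with a narrow witness `C = (a; s)`

If `w_C ≤ 7/10`, the cell `(r; s)` has volume at most `hC w`.
-/

set_option autoImplicit false

namespace Pool.Agent.Helper36.TB

open Pool.Agent.Helper84.TS Pool.Agent.Helper23.TS Pool.Agent.Helper36.TS Pool.Agent.Helper44.TS
  Pool.Agent.Helper74.TS Pool.Agent.Helper90.TS Pool.Agent.Helper92.TS

private theorem polyA {w α : ℝ} (w0 : 0 ≤ w) (α0 : 0 ≤ α) (ha : α ≤ 1 / 4) (h : α ≤ w) :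
    w * α * (1 + w - α) - w ^ 3 / 3 + (w - α) ^ 3 / 3 ≤ hC w := by
  have key : ∀ t : ℝ, α ≤ t → t ≤ 1 / 4 → t ≤ w →
      w * α * (1 + w - α) + (w - α) ^ 3 / 3 ≤ w * t * (1 + w - t) + (w - t) ^ 3 / 3 := by
    intro t h1 h2 h3
    have e : 0 ≤ (t - α) * (w - (t ^ 2 + t * α + α ^ 2) / 3) := by
      refine mul_nonneg (by linarith) ?_
      have t0 : 0 ≤ t := by linarith
      nlinarith [mul_nonneg t0 (by linarith : 0 ≤ t - α), mul_nonneg α0 (by linarith : 0 ≤ t - α),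
        mul_nonneg t0 (by linarith : 0 ≤ 1 - t)]
    nlinarith
  have w3 : 0 ≤ w * (w * w) := mul_nonneg w0 (mul_nonneg w0 w0)
  unfold hC
  rcases le_total w (1 / 4) with k | k
  · have e1 := key w h k le_rfl
    nlinarith [mul_nonneg w0 (sq_nonneg (w - 1 / 5)), mul_nonneg w0 (by linarith : 0 ≤ 1 / 4 - w)]
  · have e1 := key (1 / 4) ha le_rfl k
    have e2 : w * (1 / 4) * (1 + w - 1 / 4) + (w - 1 / 4) ^ 3 / 3 - w ^ 3 / 3 =
        w / 4 - 1 / 192 := by ring
    have e3 : w / 4 - 1 / 192 ≤ 26 / 125 * w + 1 / 20 * w ^ 2 + 9 / 50 * w ^ 3 := by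
      nlinarith [mul_nonneg w0 (sq_nonneg (w - 1 / 4)), sq_nonneg (w - 1 / 4)]
    linarith

/-- a narrow cell -/
theorem vl_hC_A {w α β : ℝ} (w0 : 0 ≤ w) (α0 : 0 ≤ α) (β0 : 0 ≤ β)
    (lo : w ≤ α + β) (hi : α + β ≤ 1 + w) (ha : α ≤ 1 / 4) : vl w α β ≤ hC w := by
  have e1 : vl w α β ≤ vl w α (1 + w - α) := vl_mono_r w0 α0 β0 lo (by linarith)
  refine e1.trans ?_
  unfold vl
  rw [max_eq_right (by linarith : w - (1 + w - α) ≤ 0)]
  rcases le_total α w with h | h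
  · rw [max_eq_left (by linarith : 0 ≤ w - α)]
    have := polyA w0 α0 ha h
    linarith
  · rw [max_eq_right (by linarith : w - α ≤ 0)]
    unfold hC
    have e2 : 0 ≤ w * ((1 / 4 - α) * (3 / 4 + w - α)) :=
      mul_nonneg w0 (mul_nonneg (by linarith) (by linarith))
    have e4 : 0 ≤ w * (41 / 2000 - 1 / 5 * w + 77 / 150 * w ^ 2) := by
      refine mul_nonneg w0 ?_
      nlinarith [sq_nonneg (w - 30 / 154)]
    nlinarith

/-- a high cell -/
theorem vl_hC_B {w α β : ℝ} (w0 : 0 ≤ w) (w1 : w ≤ 7 / 10) (α0 : 0 ≤ α) (β0 : 0 ≤ β)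
    (lo : w ≤ α + β) (hi : α + β ≤ 7 / 10 + w) : vl w α β ≤ hC w := by
  wlog hab : α ≤ β generalizing α β
  · rw [vl_comm]
    exact this β0 α0 (by linarith) (by linarith) (le_of_not_ge hab)
  have e1 : vl w α β ≤ vl w α (7 / 10 + w - α) := vl_mono_r w0 α0 β0 lo (by linarith)
  refine e1.trans ?_
  have hS : α ≤ (7 / 10 + w) / 2 := by linarith
  unfold vl hC
  rw [max_eq_right (by linarith : w - (7 / 10 + w - α) ≤ 0)]
  have e4 : 0 ≤ w * (171 / 2000 - 3 / 10 * w + 79 / 300 * w ^ 2) := by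
    refine mul_nonneg w0 ?_
    nlinarith [sq_nonneg (w - 45 / 79)]
  rcases le_total α w with h | h
  · rw [max_eq_left (by linarith : 0 ≤ w - α)]
    have e2 : (w - α) ^ 3 ≤ w * ((7 / 10 + w) / 2 - α) ^ 2 := by
      have f1 : 0 ≤ w - α := by linarith
      have f2 : w - α ≤ (7 / 10 + w) / 2 - α := by linarith
      have f3 : (w - α) ^ 2 ≤ ((7 / 10 + w) / 2 - α) ^ 2 := pow_le_pow_left₀ f1 f2 2
      calc (w - α) ^ 3 = (w - α) * (w - α) ^ 2 := by ring
        _ ≤ w * ((7 / 10 + w) / 2 - α) ^ 2 :=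
          mul_le_mul (by linarith) f3 (sq_nonneg _) w0
    have e3 : 0 ≤ w * ((7 / 10 + w) / 2 - α) ^ 2 := mul_nonneg w0 (sq_nonneg _)
    nlinarith
  · rw [max_eq_right (by linarith : w - α ≤ 0)]
    have e3 : 0 ≤ w * ((7 / 10 + w) / 2 - α) ^ 2 := mul_nonneg w0 (sq_nonneg _)
    nlinarith

/-- **The cell in conflict with `C`.** -/
theorem conf_small {A : Fin 4 → Fin 4 → Option (Fin 4 → ℝ)} {P : Fin 4 → Fin 4 → ℝ}
    {a p r s : Fin 4} {C : Fin 4 → ℝ} (h : OLB A P a) (hn : [a, p, r, s].Nodup)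
    (kC : KB A P a s p r C) (hc : 2 + C s ≤ 7 / 10) {F : Fin 4 → ℝ}
    (hF : A r s = some F) : fo r (A r s) ≤ hC (2 + F s) := by
  have n := nodup_ne hn
  have n1 : [r, s, p, a].Nodup := by
    clear * - hn; revert hn; revert a p r s; decide
  have n2 : [a, r, s, p].Nodup := by
    clear * - hn; revert hn; revert a p r s; decide
  have n3 : s ≠ r := by
    clear * - hn; revert hn; revert a p r s; decide
  have hcell := h.of.cell r s F hF
  have hgt := h.of.far r s F n3 hF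
  have hcC := h.of.cell a s C kC.hC
  have hs : Sep C F := sep_of h.of kC.hC hF n.2.1.symm
  have h1 := (sep_min hcC hcell n2).1 hs
  have h2 := h.hw r s F n.2.1 n3 hF
  have h3 := kC.hd
  obtain ⟨b1, b2, b3, b4, b5, b6, b7, b8, b9⟩ := far_bounds hcell n1 hgt.le
  have hf := far_formula hcell n1 hgt.le
  have hl := cell_lin hcell n1
  have hlC := cell_lin hcC n2
  obtain ⟨w, hw⟩ : ∃ w, w = 2 + F s := ⟨_, rfl⟩
  obtain ⟨α, hα⟩ : ∃ α, α = 1 - (F p + (F r - 1)) := ⟨_, rfl⟩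
  obtain ⟨β, hβ⟩ : ∃ β, β = 1 - (F a + (F r - 1)) := ⟨_, rfl⟩
  have hv : fo r (A r s) = vl w α β := by
    rw [hF]
    simp only [fo]
    rw [hf, vl, hw, hα, hβ, show 2 + F s - (1 - (F p + (F r - 1))) = -F a by linarith,
      show 2 + F s - (1 - (F a + (F r - 1))) = -F p by linarith]
    ring
  rw [hv, ← hw]
  have h4 : 2 - 7 / 10 ≤ min (-C s) (-F s) := le_min (by linarith) (by linarith)
  rcases le_total (-C p) (-F p) with h5 | h5
  · rw [min_eq_left h5] at h1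
    exact vl_hC_B (by linarith) (by linarith) (by linarith) (by linarith) (by linarith)
      (by linarith)
  · rw [min_eq_right h5] at h1
    exact vl_hC_A (by linarith) (by linarith) (by linarith) (by linarith) (by linarith)
      (by linarith)

end Pool.Agent.Helper36.TB
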